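import Mathlib

/-!
# Isometries of the hermitian space over a field with four elements, transitive on pairs (helper15, for MP_cdca5f_co)
-/

namespace Pool.Agent.HPPI

/-- `F` is a field with four elements, in the form used here. -/
structure IsF4 (F : Type*) [Field F] : Prop where
  two : ∀ c : F, c + c = 0
  pow : ∀ c : F, c ^ 4 = c
  om : ∃ w : F, w ^ 2 + w + 1 = 0

variable {F : Type*} [Field F] {ι : Type*} [Fintype ι]

/-- the hermitian form `∑ vᵢ conj wᵢ`, `conj c = c ^ 2` -/
def h (v w : ι → F) : F := ∑ i, v i * (w i) ^ 2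

theorem sq_add (hF : IsF4 F) (a b : F) : (a + b) ^ 2 = a ^ 2 + b ^ 2 := by
  have := hF.two (a * b)
  linear_combination this

theorem h_add_left (u v w : ι → F) : h (u + v) w = h u w + h v w := by
  simp [h, add_mul, Finset.sum_add_distrib]

theorem h_add_right (hF : IsF4 F) (u v w : ι → F) : h u (v + w) = h u v + h u w := by
  simp [h, sq_add hF, mul_add, Finset.sum_add_distrib]

theorem h_smul_left (c : F) (v w : ι → F) : h (c • v) w = c * h v w := by
  simp [h, Finset.mul_sum, mul_assoc]

theorem h_smul_right (c : F) (v w : ι → F) : h v (c • w) = c ^ 2 * h v w := by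
  simp only [h, Finset.mul_sum, Pi.smul_apply, smul_eq_mul]
  exact Finset.sum_congr rfl fun i _ => by ring

theorem h_symm (hF : IsF4 F) (v w : ι → F) : h w v = (h v w) ^ 2 := by
  have key : ∀ (s : Finset ι) (f : ι → F), (∑ i ∈ s, f i) ^ 2 = ∑ i ∈ s, (f i) ^ 2 := by
    classical
    intro s f
    induction s using Finset.induction_on with
    | empty => simp
    | insert a s ha ih => rw [Finset.sum_insert ha, Finset.sum_insert ha, sq_add hF, ih]
  unfold h
  rw [key]
  refine Finset.sum_congr rfl fun i _ => ?_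
  have := hF.pow (w i)
  linear_combination (-(v i) ^ 2) * this

theorem norm_sq (hF : IsF4 F) (v : ι → F) : (h v v) ^ 2 = h v v := (h_symm hF v v).symm

/-- A linear map that preserves the form. -/
def IsIsom (g : (ι → F) →ₗ[F] (ι → F)) : Prop := ∀ v w, h (g v) (g w) = h v w

theorem IsIsom.comp {g k : (ι → F) →ₗ[F] (ι → F)} (hg : IsIsom g) (hk : IsIsom k) : IsIsom (g ∘ₗ k) :=
  fun v w => by rw [LinearMap.comp_apply, LinearMap.comp_apply, hg, hk]

theorem IsIsom.id : IsIsom (LinearMap.id : (ι → F) →ₗ[F] (ι → F)) := fun _ _ => rfl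

/-- the reflection `v ↦ v + a h(v,w) w` -/
def refl' (a : F) (w : ι → F) : (ι → F) →ₗ[F] (ι → F) where
  toFun v := v + (a * h v w) • w
  map_add' u v := by
    rw [h_add_left, mul_add, add_smul]; abel
  map_smul' c v := by
    rw [h_smul_left, RingHom.id_apply, smul_add, smul_smul]
    congr 2; ring

theorem refl'_isom (hF : IsF4 F) {a : F} {w : ι → F} (ha : a + a ^ 2 + a ^ 3 * h w w = 0) :
    IsIsom (refl' a w) := by
  intro u v
  show h (u + (a * h u w) • w) (v + (a * h v w) • w) = h u v
  rw [h_add_left, h_add_right hF, h_add_right hF, h_smul_left, h_smul_left, h_smul_right, h_smul_right]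
  have e : h w v = (h v w) ^ 2 := h_symm hF v w
  rw [e]
  linear_combination (h u w * (h v w) ^ 2) * ha

theorem step (hF : IsF4 F) {x y z : ι → F} (hN : h y y = h z z) (hx : h x y = h x z)
    (hne : h y z ≠ h y y) : ∃ g : (ι → F) →ₗ[F] (ι → F), IsIsom g ∧ g x = x ∧ g y = z := by
  set c : F := h y y + h y z with hc
  have hc0 : c ≠ 0 := by
    intro h0
    apply hne
    have := hF.two (h y y)
    linear_combination h0 - this
  have hc3 : c ^ 3 = 1 := by
    have h1 := hF.pow c
    have h2 : c * (c ^ 3 - 1) = 0 := by linear_combination h1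
    rcases mul_eq_zero.1 h2 with h3 | h3
    · exact absurd h3 hc0
    · linear_combination h3
  refine ⟨refl' (c ^ 2) (y + z), refl'_isom hF ?_, ?_, ?_⟩
  · rw [h_add_left, h_add_right hF, h_add_right hF, ← hN, h_symm hF y z]
    have hn := norm_sq hF y
    have h1 := hF.pow c
    have e1 : h y y + h y z + ((h y z) ^ 2 + h y y) = c + c ^ 2 := by
      rw [hc, sq_add hF]
      linear_combination -hn
    rw [e1]
    have e2 : (c ^ 2) ^ 3 = 1 := by rw [← pow_mul, mul_comm, pow_mul, hc3, one_pow]
    rw [e2]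
    have h2 := hF.two (c ^ 2)
    have h3 := hF.two c
    linear_combination h1 + h2 + h3
  · show x + (c ^ 2 * h x (y + z)) • (y + z) = x
    rw [h_add_right hF, ← hx, hF.two, mul_zero, zero_smul, add_zero]
  · show y + (c ^ 2 * h y (y + z)) • (y + z) = z
    rw [h_add_right hF, ← hc]
    have : c ^ 2 * c = 1 := by linear_combination hc3
    rw [this, one_smul]
    ext i
    show y i + (y i + z i) = z i
    linear_combination hF.two (y i)

theorem perp [DecidableEq ι] (hF : IsF4 F) {x y : ι → F} (hy : ∀ c : F, y ≠ c • x) :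
    ∃ u : ι → F, h x u = 0 ∧ h y u ≠ 0 := by
  have hsingle : ∀ (v : ι → F) (i : ι) (c : F), h v (Pi.single i c) = v i * c ^ 2 := by
    intro v i c
    unfold h
    rw [Finset.sum_eq_single i]
    · simp
    · intro j _ hj; simp [Pi.single_eq_of_ne hj]
    · intro hi; exact absurd (Finset.mem_univ i) hi
  by_cases hx : x = 0
  · subst hx
    have hy0 : y ≠ 0 := by
      have := hy 0
      rwa [zero_smul] at this
    obtain ⟨i, hi⟩ := Function.ne_iff.1 hy0
    refine ⟨Pi.single i 1, ?_, ?_⟩
    · rw [hsingle]; simp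
    · rw [hsingle]; simpa using hi
  · obtain ⟨i, hi⟩ := Function.ne_iff.1 hx
    have hi' : x i ≠ 0 := hi
    obtain ⟨j, hj⟩ := Function.ne_iff.1 (hy (y i / x i))
    have hj' : y j * x i ≠ y i * x j := by
      intro h1
      apply hj
      show y j = y i / x i * x j
      field_simp
      linear_combination h1
    refine ⟨Pi.single i ((x j) ^ 2) + Pi.single j ((x i) ^ 2), ?_, ?_⟩
    · rw [h_add_right hF, hsingle, hsingle]
      have h1 := hF.pow (x i)
      have h2 := hF.pow (x j)
      have h3 := hF.two (x i * x j)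
      linear_combination (x i) * h2 + (x j) * h1 + h3
    · rw [h_add_right hF, hsingle, hsingle]
      have h1 := hF.pow (x i)
      have h2 := hF.pow (x j)
      intro h0
      apply hj'
      have h3 := hF.two (y i * x j)
      linear_combination h0 - (y i) * h2 - (y j) * h1 - h3

theorem perp2 [DecidableEq ι] (hF : IsF4 F) {x y z : ι → F} (hy : ∀ c : F, y ≠ c • x)
    (hz : ∀ c : F, z ≠ c • x) : ∃ u : ι → F, h x u = 0 ∧ h y u ≠ 0 ∧ h z u ≠ 0 := by
  obtain ⟨u, hu1, hu2⟩ := perp hF hy
  obtain ⟨v, hv1, hv2⟩ := perp hF hz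
  by_cases h1 : h z u = 0
  · by_cases h2 : h y v = 0
    · refine ⟨u + v, ?_, ?_, ?_⟩
      · rw [h_add_right hF, hu1, hv1, add_zero]
      · rw [h_add_right hF, h2, add_zero]; exact hu2
      · rw [h_add_right hF, h1, zero_add]; exact hv2
    · exact ⟨v, hv1, h2, hv2⟩
  · exact ⟨u, hu1, hu2, h1⟩

theorem pow3 (hF : IsF4 F) {c : F} (hc : c ≠ 0) : c ^ 3 = 1 := by
  have h1 := hF.pow c
  have h2 : c * (c ^ 3 - 1) = 0 := by linear_combination h1
  rcases mul_eq_zero.1 h2 with h3 | h3
  · exact absurd h3 hc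
  · linear_combination h3

/-- For nonzero `t` and `N ∈ {0, 1}` some nonzero multiple `c t` has trace `c t + (c t) ^ 2 = N`. -/
theorem scale (hF : IsF4 F) {t N : F} (ht : t ≠ 0) (hN : N = 0 ∨ N = 1) :
    ∃ c : F, c ≠ 0 ∧ c * t + (c * t) ^ 2 = N := by
  have h3 := pow3 hF ht
  rcases hN with rfl | rfl
  · refine ⟨t ^ 2, pow_ne_zero 2 ht, ?_⟩
    have : t ^ 2 * t = 1 := by linear_combination h3
    rw [this]
    linear_combination hF.two 1
  · obtain ⟨w, hw⟩ := hF.om
    have hw0 : w ≠ 0 := by
      rintro rfl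
      simp at hw
    refine ⟨w * t ^ 2, mul_ne_zero hw0 (pow_ne_zero 2 ht), ?_⟩
    have : w * t ^ 2 * t = w := by linear_combination w * h3
    rw [this]
    linear_combination hw - hF.two 1

theorem norm_cases (hF : IsF4 F) (v : ι → F) : h v v = 0 ∨ h v v = 1 := by
  have h1 := norm_sq hF v
  have h2 : h v v * (h v v - 1) = 0 := by linear_combination h1
  rcases mul_eq_zero.1 h2 with h3 | h3
  · exact Or.inl h3
  · exact Or.inr (by linear_combination h3)

/-- Witt for one vector over a fixed vector `x` (which may be zero). -/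
theorem witt1 [DecidableEq ι] (hF : IsF4 F) {x y z : ι → F} (hy : ∀ c : F, y ≠ c • x) (hz : ∀ c : F, z ≠ c • x)
    (hN : h y y = h z z) (hx : h x y = h x z) :
    ∃ g : (ι → F) →ₗ[F] (ι → F), IsIsom g ∧ g x = x ∧ g y = z := by
  by_cases hne : h y z = h y y
  · obtain ⟨u, hu0, hu1, hu2⟩ := perp2 hF hy hz
    obtain ⟨c, hc0, hc⟩ := scale hF hu1 (norm_cases hF u)
    have hc3 := pow3 hF hc0
    have hd0 : c ^ 2 ≠ 0 := pow_ne_zero 2 hc0
    have e4 : (c ^ 2) ^ 2 = c := by
      have := hF.pow c
      linear_combination this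
    have a1 : h y ((c ^ 2) • u) = c * h y u := by rw [h_smul_right, e4]
    have a2 : h x ((c ^ 2) • u) = 0 := by rw [h_smul_right, hu0, mul_zero]
    have a3 : h z ((c ^ 2) • u) ≠ 0 := by rw [h_smul_right, e4]; exact mul_ne_zero hc0 hu2
    have a4 : h ((c ^ 2) • u) ((c ^ 2) • u) = h u u := by
      rw [h_smul_right, h_smul_left, e4]
      linear_combination (h u u) * hc3
    set v : ι → F := (c ^ 2) • u
    have a5 : h y v ≠ 0 := by rw [a1]; exact mul_ne_zero hc0 hu1
    have b1 : h (y + v) (y + v) = h y y := by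
      rw [h_add_left, h_add_right hF, h_add_right hF, h_symm hF y v, a4, a1]
      have := hF.two (h u u)
      linear_combination hc + this
    have b2 : h x (y + v) = h x y := by rw [h_add_right hF, a2, add_zero]
    obtain ⟨g1, hg1, hg1x, hg1y⟩ := step hF (x := x) (y := y) (z := y + v) b1.symm b2.symm (by
      rw [h_add_right hF]
      intro h0
      apply a5
      linear_combination h0)
    obtain ⟨g2, hg2, hg2x, hg2y⟩ := step hF (x := x) (y := y + v) (z := z) (by rw [b1, hN]) (by rw [b2, hx]) (by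
      rw [b1, h_add_left, hne]
      intro h0
      apply a3
      rw [h_symm hF v z]
      have : h v z = 0 := by linear_combination h0
      rw [this]; ring)
    exact ⟨g2 ∘ₗ g1, hg2.comp hg1, by rw [LinearMap.comp_apply, hg1x, hg2x],
      by rw [LinearMap.comp_apply, hg1y, hg2y]⟩
  · exact step hF hN hx hne

theorem isom_inj (hF : IsF4 F) {g : (ι → F) →ₗ[F] (ι → F)} (hg : IsIsom g) : Function.Injective g := by
  classical
  rw [injective_iff_map_eq_zero]
  intro v hv
  by_contra hne
  obtain ⟨u, -, hu⟩ := perp hF (x := (0 : ι → F)) (y := v) (fun c => by rwa [smul_zero])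
  apply hu
  rw [← hg, hv]
  unfold h
  simp

/-- Witt for pairs: independent pairs with the same Gram matrix. -/
theorem witt2 [DecidableEq ι] (hF : IsF4 F) {x y x' y' : ι → F} (hx : x ≠ 0) (hy : ∀ c : F, y ≠ c • x)
    (hx' : x' ≠ 0) (hy' : ∀ c : F, y' ≠ c • x')
    (hxx : h x x = h x' x') (hyy : h y y = h y' y') (hxy : h x y = h x' y') :
    ∃ g : (ι → F) →ₗ[F] (ι → F), IsIsom g ∧ g x = x' ∧ g y = y' := by
  obtain ⟨g1, hg1, -, hg1x⟩ := witt1 hF (x := (0 : ι → F)) (y := x) (z := x') (fun c => by rwa [smul_zero])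
    (fun c => by rwa [smul_zero]) hxx (by unfold h; simp)
  obtain ⟨g2, hg2, hg2x, hg2y⟩ := witt1 hF (x := x') (y := g1 y) (z := y') (fun c h0 => by
      rw [← hg1x, ← map_smul] at h0
      exact hy c (isom_inj hF hg1 h0)) hy' (by rw [hg1, hyy]) (by rw [← hg1x, hg1, hg1x, hxy])
  exact ⟨g2 ∘ₗ g1, hg2.comp hg1, by rw [LinearMap.comp_apply, hg1x, hg2x],
      by rw [LinearMap.comp_apply, hg2y]⟩

/-- Any field with four elements is of this form. -/
theorem isF4_of_card {F : Type*} [Field F] [Fintype F] (hF : Fintype.card F = 4) : IsF4 F := by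
  have hp : ∀ c : F, c ^ 4 = c := fun c => by
    have := FiniteField.pow_card c
    rwa [hF] at this
  have h2 : (2 : F) = 0 := by
    have h1 : ((Fintype.card F : ℕ) : F) = 0 := Nat.cast_card_eq_zero F
    rw [hF] at h1
    have h3 : (2 : F) * 2 = 0 := by
      have : ((4 : ℕ) : F) = 2 * 2 := by norm_num
      rw [← this, h1]
    rcases mul_eq_zero.1 h3 with h | h <;> exact h
  refine ⟨fun c => by linear_combination c * h2, hp, ?_⟩
  by_contra hne
  push Not at hne
  classical
  have hsub : (Finset.univ : Finset F) ⊆ {0, 1} := by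
    intro c _
    by_contra hc
    simp only [Finset.mem_insert, Finset.mem_singleton, not_or] at hc
    have h3 : c * (c - 1) * (c ^ 2 + c + 1) = 0 := by linear_combination hp c
    rcases mul_eq_zero.1 h3 with h4 | h4
    · rcases mul_eq_zero.1 h4 with h5 | h5
      · exact hc.1 h5
      · exact hc.2 (by linear_combination h5)
    · exact hne c h4
  have := Finset.card_le_card hsub
  rw [Finset.card_univ, hF] at this
  have h5 : ({0, 1} : Finset F).card ≤ 2 := Finset.card_le_two
  omega

end Pool.Agent.HPPI
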