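import Pool.Agent.HPP.Defs
import Pool.Agent.HPPI.Iso

/-!
Transitivity on pairs and on vectors in the vocabulary of `Pool.Agent.HPP.Defs` (helper15, for MP_cdca5f_co)
-/

set_option autoImplicit false

namespace Pool.Agent.HPP

theorem isF4 : HPPI.IsF4 F where
  two c := CharTwo.add_self_eq_zero c
  pow := pow_four
  om := by
    obtain ⟨w, hw, -, -⟩ := exists_omega
    refine ⟨w, ?_⟩
    rw [hw, add_assoc]
    exact CharTwo.add_self_eq_zero (w + 1)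

theorem equiv_of_isom {n : ℕ} {g : (Fin n → F) →ₗ[F] (Fin n → F)} (hg : HPPI.IsIsom g) :
    ∃ T : (Fin n → F) ≃ₗ[F] (Fin n → F), (∀ v w, h (T v) (T w) = h v w) ∧ ∀ v, T v = g v :=
  ⟨LinearEquiv.ofInjectiveEndo g (HPPI.isom_inj isF4 hg), fun v w => hg v w, fun _ => rfl⟩

/-- no lower bound on `n` is needed -/
theorem pair_iso' {n : ℕ} {x y x' y' : Fin n → F} (hy : y ≠ 0)
    (hxy : ∀ c : F, x ≠ c • y) (hy' : y' ≠ 0) (hxy' : ∀ c : F, x' ≠ c • y')
    (h1 : h x x = h x' x') (h2 : h y y = h y' y') (h3 : h x y = h x' y') :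
    ∃ T : (Fin n → F) ≃ₗ[F] (Fin n → F), (∀ v w, h (T v) (T w) = h v w) ∧ T x = x' ∧ T y = y' := by
  obtain ⟨g, hg, g1, g2⟩ := HPPI.witt2 isF4 hy hxy hy' hxy' h2 h1 (by
    have e1 := h_sq x y
    have e2 := h_sq x' y'
    rw [h3] at e1
    exact e1.symm.trans e2)
  obtain ⟨T, hT, hTg⟩ := equiv_of_isom hg
  exact ⟨T, hT, by rw [hTg, g2], by rw [hTg, g1]⟩

/-- nonzero vectors of the same norm are equivalent -/
theorem vec_iso {n : ℕ} {x x' : Fin n → F} (hx : x ≠ 0) (hx' : x' ≠ 0) (h1 : h x x = h x' x') :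
    ∃ T : (Fin n → F) ≃ₗ[F] (Fin n → F), (∀ v w, h (T v) (T w) = h v w) ∧ T x = x' := by
  obtain ⟨g, hg, -, g1⟩ := HPPI.witt1 isF4 (x := (0 : Fin n → F)) (y := x) (z := x')
    (fun c => by rwa [smul_zero]) (fun c => by rwa [smul_zero]) h1 ((h_zero_left x).trans (h_zero_left x').symm)
  obtain ⟨T, hT, hTg⟩ := equiv_of_isom hg
  exact ⟨T, hT, by rw [hTg, g1]⟩

theorem move1' {n : ℕ} {x x' : Fin n → F} (hx : h x x = 1) (hx' : h x' x' = 1) :
    ∃ T : (Fin n → F) ≃ₗ[F] (Fin n → F), (∀ v w, h (T v) (T w) = h v w) ∧ T x = x' :=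
  vec_iso (by rintro rfl; rw [h_zero_left] at hx; exact zero_ne_one hx)
    (by rintro rfl; rw [h_zero_left] at hx'; exact zero_ne_one hx') (hx.trans hx'.symm)

end Pool.Agent.HPP
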